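import Pool.Agent.H698R3.HsFinal

set_option autoImplicit false

/-!
Stability passes to amalgamated free products over finite almost normal subgroups, for both
classes: symmetric groups with the normalised Hamming distance, and unitary groups with the
normalised Hilbert-Schmidt distance.
-/

namespace Pool.Agent.Results.MP_098da0_al.AmalgStable

open Pool.Agent.H698R3.Amalg

/-- Let `G₁` and `G₂` be countable groups and `H` a finite group embedded in both as an almost
normal subgroup. If `G₁` and `G₂` are stable in permutations, so is `G₁ *_H G₂`; if `G₁` and `G₂`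
are Hilbert-Schmidt stable, so is `G₁ *_H G₂`. -/
theorem result (G₁ G₂ H : Type) [Group G₁] [Group G₂] [Group H] [Countable G₁] [Countable G₂]
    [Finite H] (f₁ : H →* G₁) (f₂ : H →* G₂)
    (_hf₁ : Function.Injective f₁) (_hf₂ : Function.Injective f₂)
    (hn₁ : AlmostNormal f₁.range) (hn₂ : AlmostNormal f₂.range) :
    (PermutationStable G₁ → PermutationStable G₂ → PermutationStable (AmalgProd f₁ f₂)) ∧
    (HilbertSchmidtStable G₁ → HilbertSchmidtStable G₂ →
      HilbertSchmidtStable (AmalgProd f₁ f₂)) :=
  ⟨permStable_amalg f₁ f₂ hn₁ hn₂, hsStable_amalg f₁ f₂ hn₁ hn₂⟩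

end Pool.Agent.Results.MP_098da0_al.AmalgStable
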